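import Pool.Agent.R856.CM14

set_option autoImplicit false

namespace Pool.Agent.Results.MP_5d4920_nt.QuestionOne

open Finset Pool.Agent.Helper857.Pad Pool.Agent.R856.TK Pool.Agent.R856.CM

lemma leg3 (k : ℕ) : legendreSym 3 (k:ℤ) = chi3 k := by
  rw [jacobiSym.legendreSym.to_jacobiSym, jacobiSym.mod_left]
  unfold chi3
  have h : k % 3 = 0 ∨ k % 3 = 1 ∨ k % 3 = 2 := by omega
  rcases h with h | h | h <;> rw [h]
  · have : (k:ℤ) % ((3:ℕ):ℤ) = 0 := by exact_mod_cast h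
    rw [this]; norm_num
  · have : (k:ℤ) % ((3:ℕ):ℤ) = 1 := by exact_mod_cast h
    rw [this]; norm_num
  · have : (k:ℤ) % ((3:ℕ):ℤ) = 2 := by exact_mod_cast h
    rw [this]; norm_num

lemma den_of_I {p : ℕ} [hp : Fact p.Prime] {x : ℚ} (h : I p 2 x) : ¬ p ∣ (x / (p:ℚ)^2).den := by
  obtain ⟨y, hy, e⟩ := h
  have hp0 : (p:ℚ) ≠ 0 := by exact_mod_cast hp.out.ne_zero
  rw [e, mul_div_cancel_left₀ y (pow_ne_zero 2 hp0)]
  exact hy

/-- For every prime `p > 3`: if `p ≡ 7 (mod 12)` and `p = x^2+3y^2` with `y ≡ 1 (mod 4)`, then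
`∑_{k<p} (k/3) C(2k,k)^2/(-16)^k ≡ (-1)^{(p-3)/4} (4y - p/(3y)) (mod p^2)` and
`∑_{k<p} (k/3) k C(2k,k)^2/(-16)^k ≡ (-1)^{(p+1)/4} y (mod p^2)`; and if `p ≡ 1 (mod 12)` then
`∑_{k<p} C(p-1,k) (k/3) C(2k,k)^2/16^k ≡ 0 (mod p^2)`. A congruence `a ≡ b (mod p^2)` between rationals
is expressed by saying that the reduced denominator of `(a-b)/p^2` is prime to `p`. -/
theorem result : ∀ p : ℕ, p.Prime → 3 < p →
    (∀ x y : ℤ, p % 12 = 7 → (p:ℤ) = x^2 + 3*y^2 → y % 4 = 1 →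
      ¬ p ∣ (((∑ k ∈ Finset.range p, (legendreSym 3 (k:ℤ) : ℚ) * (((2*k).choose k : ℚ)^2 / (-16)^k)) -
        (-1)^((p-3)/4) * (4*(y:ℚ) - (p:ℚ)/(3*(y:ℚ)))) / (p:ℚ)^2).den ∧
      ¬ p ∣ (((∑ k ∈ Finset.range p, (legendreSym 3 (k:ℤ) : ℚ) * ((k:ℚ) * ((2*k).choose k : ℚ)^2 / (-16)^k)) -
        (-1)^((p+1)/4) * (y:ℚ)) / (p:ℚ)^2).den) ∧
    (p % 12 = 1 →
      ¬ p ∣ ((∑ k ∈ Finset.range p, ((p-1).choose k : ℚ) * (legendreSym 3 (k:ℤ) : ℚ) *
        (((2*k).choose k : ℚ)^2 / 16^k)) / (p:ℚ)^2).den) := by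
  intro p hpp hp3
  have hp : Fact p.Prime := ⟨hpp⟩
  refine ⟨?_, ?_⟩
  · intro x y h12 hxy hy
    obtain ⟨c, hc⟩ : ∃ c, 6*c+1 = p := ⟨p/6, by omega⟩
    obtain ⟨j, hj⟩ : ∃ j, p = 4*j+3 := ⟨p/4, by omega⟩
    have hc1 : 1 ≤ c := by omega
    obtain ⟨h1, h2⟩ := partA hc hc1 j hj x y hy hxy
    have r1 := red (p := p) (m := 3*c) (by omega) (by omega) (fun k => (chi3 k : ℚ)) (fun k _ => int_mem _)
    have r2 := red (p := p) (m := 3*c) (by omega) (by omega) (fun k => (chi3 k : ℚ) * (k:ℚ))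
      (fun k _ => (Zp p).mul_mem (int_mem _) (nat_mem _))
    constructor
    · apply den_of_I
      have e : (∑ k ∈ Finset.range p, (legendreSym 3 (k:ℤ) : ℚ) * (((2*k).choose k : ℚ)^2 / (-16)^k)) -
        (-1)^((p-3)/4) * (4*(y:ℚ) - (p:ℚ)/(3*(y:ℚ))) =
        (∑ k ∈ Finset.range p, (chi3 k : ℚ) * (((2*k).choose k : ℚ)^2 / (-16)^k) - ∑ k ∈ range (3*c+1), (chi3 k : ℚ) * aa (3*c) k) +
        (Sg1 (3*c) - (-1)^j * (4*y - p/(3*y))) := by
        rw [show (p-3)/4 = j by omega]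
        unfold Sg1
        simp only [leg3]
        ring
      rw [e]
      exact r1.add h1
    · apply den_of_I
      have e : (∑ k ∈ Finset.range p, (legendreSym 3 (k:ℤ) : ℚ) * ((k:ℚ) * ((2*k).choose k : ℚ)^2 / (-16)^k)) -
        (-1)^((p+1)/4) * (y:ℚ) =
        (∑ k ∈ Finset.range p, ((chi3 k : ℚ) * (k:ℚ)) * (((2*k).choose k : ℚ)^2 / (-16)^k) -
          ∑ k ∈ range (3*c+1), ((chi3 k : ℚ) * (k:ℚ)) * aa (3*c) k) + (Sg2 (3*c) + (-1)^j * y) := by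
        have e1 : ∑ k ∈ Finset.range p, (legendreSym 3 (k:ℤ) : ℚ) * ((k:ℚ) * ((2*k).choose k : ℚ)^2 / (-16)^k) =
            ∑ k ∈ Finset.range p, ((chi3 k : ℚ) * (k:ℚ)) * (((2*k).choose k : ℚ)^2 / (-16)^k) := by
          apply sum_congr rfl
          intro k _
          rw [leg3]; ring
        have e2 : Sg2 (3*c) = ∑ k ∈ range (3*c+1), ((chi3 k : ℚ) * (k:ℚ)) * aa (3*c) k := by
          unfold Sg2
          apply sum_congr rfl
          intro k _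
          ring
        rw [show (p+1)/4 = j+1 by omega, e1, e2, pow_succ]
        ring
      rw [e]
      exact r2.add h2
  · intro h12
    obtain ⟨c, hc⟩ : ∃ c, 6*c+1 = p := ⟨p/6, by omega⟩
    have hB := partB hc (by omega) (by omega)
    apply den_of_I
    have e : ∑ k ∈ Finset.range p, ((p-1).choose k : ℚ) * (legendreSym 3 (k:ℤ) : ℚ) * (((2*k).choose k : ℚ)^2 / 16^k) =
        ∑ k ∈ range p, ((p-1).choose k : ℚ) * ((chi3 k : ℚ) * (((2*k).choose k : ℚ)^2 / 16^k)) := by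
      apply sum_congr rfl
      intro k _
      rw [leg3]; ring
    rw [e]
    exact hB

end Pool.Agent.Results.MP_5d4920_nt.QuestionOne
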